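import Pool.Agent.GRig.Main
import Pool.Agent.GRig.Num

/-!
MP_1f4999_co: the lower bound `C* ≥ c₃`, where `c₃ = inf_{x>0} x / P(Poi(x) ≥ 2) ≈ 3.35` is the
threshold for the appearance of the 3-core.
-/

namespace Pool.Agent.Results.MP_1f4999_co.LowerBound

open Pool.Agent.GRig

/-- For every `C < c₃` and every `δ > 0` the probability that G(n,C/n) has at least `δ n` vertices
that induce a globally rigid graph tends to `0`; hence `C* ≥ c₃`, and `c₃ ≥ 3.35`. -/
theorem result :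
    (∀ C : ℝ, 0 < C → C < c3 → ∀ δ : ℝ, 0 < δ →
      Filter.Tendsto (fun n : ℕ => prob n (C / n) (HasRigid n δ)) Filter.atTop (nhds 0)) ∧
    ENNReal.ofReal c3 ≤ Cstar ∧ (67 / 20 : ℝ) ≤ c3 :=
  ⟨fun _ hC h _ hδ => tendsto_zero hC h hδ, c3_le_Cstar, le_c3⟩

end Pool.Agent.Results.MP_1f4999_co.LowerBound
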