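import Pool.Agent.GRig.UMain

/-!
MP_1f4999_co: the upper bound `C* ≤ 17`.
-/

namespace Pool.Agent.Results.MP_1f4999_co.UpperBound

open Pool.Agent.GRig

/-- The probability that G(n,17/n) has at least `9n/10` vertices that induce a globally rigid graph
tends to `1`; hence `C* ≤ 17`. -/
theorem result :
    Filter.Tendsto (fun n : ℕ => prob n (17 / n) (HasRigid n (9 / 10))) Filter.atTop (nhds 1) ∧
    Cstar ≤ 17 :=
  ⟨tendsto_one, Cstar_le⟩

end Pool.Agent.Results.MP_1f4999_co.UpperBound
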